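import Pool.Agent.W5h69.FG.Defs
import Pool.Agent.W5h69.FG.BC

/-! A form of even degree invariant under all reflections but one, orthogonal to the others, is
invariant under the last one. -/

open MeasureTheory
open Pool.Agent.W5h69.FM (Vr To Form bil om)
open Pool.Agent.W5h69.FG

noncomputable section

namespace Pool.Agent.W5h69.FU

variable {r : ℕ}

/-- the orthogonal projection to the line of `ρ_i` -/
def q (D : Refl r) (i : Fin r) : Vr r →ₗ[ℝ] Vr r :=
  ((bil D.B (D.ρ i) (D.ρ i))⁻¹ • BL D.B (D.ρ i)).smulRight (D.ρ i)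

theorem q_apply (D : Refl r) (i : Fin r) (x : Vr r) :
    q D i x = ((bil D.B (D.ρ i) (D.ρ i))⁻¹ * bil D.B (D.ρ i) x) • D.ρ i := rfl

theorem bil_sub_right (B : Matrix (Fin r) (Fin r) ℝ) (x y z : Vr r) (k : ℝ) :
    bil B x (y - k • z) = bil B x y - k * bil B x z := by
  rw [← BL_apply, ← BL_apply, ← BL_apply, map_sub, map_smul, smul_eq_mul]

theorem bil_smul_right (B : Matrix (Fin r) (Fin r) ℝ) (x z : Vr r) (k : ℝ) :
    bil B x (k • z) = k * bil B x z := by
  rw [← BL_apply, ← BL_apply, map_smul, smul_eq_mul]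

theorem s_eq (D : Refl r) (i : Fin r) (x : Vr r) : D.s i x = x - (2 : ℝ) • q D i x := by
  rw [Refl.s, q_apply, smul_smul]
  congr 2
  rw [div_eq_mul_inv]
  ring

theorem bil_q (D : Refl r) (i : Fin r) (x : Vr r) :
    bil D.B (D.ρ i) (q D i x) = bil D.B (D.ρ i) x := by
  have := D.nz i
  rw [q_apply, bil_smul_right]
  field_simp

theorem q_q (D : Refl r) (i : Fin r) (x : Vr r) : q D i (q D i x) = q D i x := by
  rw [q_apply D i (q D i x), bil_q, ← q_apply]

/-- the projection to the orthogonal complement of `ρ_i` -/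
def pr (D : Refl r) (i : Fin r) : Vr r →ₗ[ℝ] Vr r := LinearMap.id - q D i

theorem pr_apply (D : Refl r) (i : Fin r) (x : Vr r) : pr D i x = x - q D i x := rfl

theorem pr_s_self (D : Refl r) (i : Fin r) (x : Vr r) : pr D i (D.s i x) = pr D i x := by
  rw [s_eq, pr_apply, pr_apply, map_sub, map_smul, q_q]
  module

theorem q_s (D : Refl r) (i j : Fin r) (h : bil D.B (D.ρ i) (D.ρ j) = 0) (x : Vr r) :
    q D i (D.s j x) = q D i x := by
  rw [q_apply, q_apply, Refl.s, bil_sub_right, h, mul_zero, sub_zero]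

theorem s_q (D : Refl r) (i j : Fin r) (h : bil D.B (D.ρ i) (D.ρ j) = 0) (x : Vr r) :
    D.s j (q D i x) = q D i x := by
  have h' : bil D.B (D.ρ j) (D.ρ i) = 0 := by rw [bil_symm, h]
  rw [Refl.s, q_apply, bil_smul_right, h']
  simp

theorem s_pr (D : Refl r) (i j : Fin r) (h : bil D.B (D.ρ i) (D.ρ j) = 0) (x : Vr r) :
    pr D i (D.s j x) = D.s j (pr D i x) := by
  have h0 : bil D.B (D.ρ j) (D.ρ i) = 0 := by rw [bil_symm, h]
  have h' : bil D.B (D.ρ j) (q D i x) = 0 := by
    rw [q_apply, bil_smul_right, h0, mul_zero]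
  have h2 : bil D.B (D.ρ j) (x - q D i x) = bil D.B (D.ρ j) x := by
    have := bil_sub_right D.B (D.ρ j) x (q D i x) 1
    rw [one_smul, h', mul_zero, sub_zero] at this
    exact this
  rw [pr_apply, q_s D i j h, pr_apply, Refl.s, Refl.s, h2]
  module

variable {ι : Type} [Fintype ι] [DecidableEq ι]

omit [Fintype ι] in
theorem upd (L : Vr r × Vr r →ₗ[ℝ] Vr r × Vr r) (S : Finset ι) (w : ι → Vr r × Vr r)
    [DecidableEq {t // t ∈ S}] (u : {t // t ∈ S} → Vr r × Vr r) (t : {t // t ∈ S})
    (z : Vr r × Vr r) :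
    (fun t' => if h : t' ∈ S then L (Function.update u t z ⟨t', h⟩) else w t') =
      Function.update (fun t' => if h : t' ∈ S then L (u ⟨t', h⟩) else w t') t.1 (L z) := by
  funext t'
  by_cases h1 : t' = t.1
  · subst h1
    simp
  · rw [Function.update_of_ne h1]
    by_cases h2 : t' ∈ S
    · rw [dif_pos h2, dif_pos h2, Function.update_of_ne]
      intro h3
      exact h1 (congrArg Subtype.val h3)
    · rw [dif_neg h2, dif_neg h2]

/-- a form with some arguments frozen and a linear map applied to the others -/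
def frz (β : Form r ι) (L : Vr r × Vr r →ₗ[ℝ] Vr r × Vr r) (S : Finset ι)
    (w : ι → Vr r × Vr r) : Form r {t // t ∈ S} where
  toFun u := β fun t => if h : t ∈ S then L (u ⟨t, h⟩) else w t
  map_update_add' := by
    intro _ u t x y
    rw [upd, upd, upd, map_add, β.map_update_add]
  map_update_smul' := by
    intro _ u t c x
    rw [upd, upd, map_smul, β.map_update_smul]
  map_eq_zero_of_eq' := by
    intro u i j hij hne
    refine β.map_eq_zero_of_eq _ (i := i.1) (j := j.1) ?_ (fun h => hne (Subtype.ext h))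
    simp [hij]

theorem frz_apply (β : Form r ι) (L : Vr r × Vr r →ₗ[ℝ] Vr r × Vr r) (S : Finset ι)
    (w : ι → Vr r × Vr r) (u : {t // t ∈ S} → Vr r × Vr r) :
    frz β L S w u = β fun t => if h : t ∈ S then L (u ⟨t, h⟩) else w t := rfl

theorem cen (hA : S_ALG) (D : Refl r) (i : Fin r)
    (horth : ∀ j, j ≠ i → bil D.B (D.ρ i) (D.ρ j) = 0) (β : Form r ι)
    (heven : Even (Fintype.card ι))
    (hinv : ∀ j, j ≠ i → ∀ v : ι → Vr r × Vr r, β (fun t => (D.s j (v t).1, D.s j (v t).2)) = β v) :
    D.Inv β := by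
  intro j
  by_cases hj : j = i
  swap
  · exact hinv j hj
  subst hj
  intro v
  set P2 : Vr r × Vr r →ₗ[ℝ] Vr r × Vr r := (pr D j).prodMap (pr D j) with hP2
  set Q2 : Vr r × Vr r →ₗ[ℝ] Vr r × Vr r := (q D j).prodMap (q D j) with hQ2
  have hodd : ∀ S : Finset ι, Odd S.card → 
      β (S.piecewise (fun t => P2 (v t)) (fun t => Q2 (v t))) = 0 := by
    intro S hS
    have hI : D.Inv (frz β P2 S (fun t => Q2 (v t))) := by
      intro k u
      rw [frz_apply, frz_apply]
      by_cases hk : k = j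
      · subst hk
        congr 1
        funext t
        split_ifs with h
        · simp only [hP2, LinearMap.prodMap_apply, pr_s_self]
        · rfl
      · have h0 := horth k hk
        refine Eq.trans ?_ (hinv k hk _)
        congr 1
        funext t
        split_ifs with h
        · simp only [hP2, LinearMap.prodMap_apply, s_pr D j k h0]
        · simp only [hQ2, LinearMap.prodMap_apply, s_q D j k h0]
    have h0 := (hA r D {t // t ∈ S} (frz β P2 S (fun t => Q2 (v t))) hI).1 (by simpa using hS)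
    have h1 : frz β P2 S (fun t => Q2 (v t)) (fun t => v t.1) = 0 := by rw [h0]; rfl
    rw [frz_apply] at h1
    rw [← h1]
    rfl
  have e1 : v = (fun t => P2 (v t)) + fun t => Q2 (v t) := by
    funext t
    simp only [Pi.add_apply, hP2, hQ2, LinearMap.prodMap_apply, pr_apply, Prod.mk_add_mk,
      sub_add_cancel]
  have e2 : (fun t => (D.s j (v t).1, D.s j (v t).2)) =
      (fun t => P2 (v t)) + fun t => (-1 : ℝ) • Q2 (v t) := by
    funext t
    simp only [Pi.add_apply, hP2, hQ2, LinearMap.prodMap_apply, pr_apply, Prod.smul_mk,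
      Prod.mk_add_mk, s_eq]
    refine Prod.ext ?_ ?_ <;> · simp only; module
  have e3 := β.toMultilinearMap.map_add_univ (fun t => P2 (v t)) (fun t => Q2 (v t))
  have e4 := β.toMultilinearMap.map_add_univ (fun t => P2 (v t)) (fun t => (-1 : ℝ) • Q2 (v t))
  rw [← e1] at e3
  rw [← e2] at e4
  show β.toMultilinearMap _ = β.toMultilinearMap _
  rw [e3, e4]
  refine Finset.sum_congr rfl fun S _ => ?_
  have e5 := β.toMultilinearMap.map_piecewise_smul (fun _ => (-1 : ℝ))
    (S.piecewise (fun t => P2 (v t)) (fun t => Q2 (v t))) Sᶜ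
  have e6 : (Sᶜ).piecewise (fun t => (-1 : ℝ) • (S.piecewise (fun t => P2 (v t))
      (fun t => Q2 (v t)) : ι → Vr r × Vr r) t)
      (S.piecewise (fun t => P2 (v t)) (fun t => Q2 (v t))) =
      S.piecewise (fun t => P2 (v t)) (fun t => (-1 : ℝ) • Q2 (v t)) := by
    funext t
    by_cases h : t ∈ S
    · simp [h]
    · simp [h]
  rw [e6, Finset.prod_const] at e5
  rw [e5]
  by_cases hc : Odd S.card
  · have := hodd S hc
    have h2 : β.toMultilinearMap (S.piecewise (fun t => P2 (v t)) (fun t => Q2 (v t))) = 0 := this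
    rw [h2, smul_zero]
  · have h3 : Even (Sᶜ).card := by
      rw [Nat.not_odd_iff_even] at hc
      rw [Finset.card_compl, Nat.even_sub (Finset.card_le_univ S)]
      exact ⟨fun _ => hc, fun _ => heven⟩
    rw [h3.neg_one_pow, one_smul]

end Pool.Agent.W5h69.FU
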