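import Pool.Agent.W5h69.FU.Defs
import Pool.Agent.W5h69.FU.Dual
import Pool.Agent.W5h69.FG.Gen
import Pool.Agent.W5h69.FG.BC

/-! Products of the `B_c` lie in the span of products of invariant inner products. -/

open MeasureTheory
open Pool.Agent.W5h69.FM (Vr To Form bil om actT actV InvUnder blockSL blockW)

open Pool.Agent.W5h69.FG (omProd Refl bil_add_mat omProd_update_sub BL BL_apply bc bc_symm bc_formula
  expand_rho rel_symm bil_pair_mat)

noncomputable section

namespace Pool.Agent.W5h69.FU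

theorem mem_gen_of_diff {r m : ℕ} (W : Weyl r) (s : Finset (Fin m)) :
    ∀ Bs : Fin m → Matrix (Fin r) (Fin r) ℝ, (∀ j ∉ s, W.InvInner (Bs j)) →
      (∀ j ∈ s, ∃ P Q, W.InvInner P ∧ W.InvInner Q ∧ Bs j = P - Q) → omProd Bs ∈ W.Gen m := by
  classical
  induction s using Finset.induction_on with
  | empty =>
    intro Bs h _
    exact Submodule.subset_span ⟨Bs, fun j => h j (Finset.notMem_empty j), rfl⟩
  | insert a s ha ih =>
    intro Bs h1 h2
    obtain ⟨P, Q, hP, hQ, hPQ⟩ := h2 a (Finset.mem_insert_self a s)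
    have hB : Bs = Function.update Bs a (P - Q) := by
      rw [← hPQ, Function.update_eq_self]
    rw [hB, omProd_update_sub]
    have key : ∀ R, W.InvInner R → omProd (Function.update Bs a R) ∈ W.Gen m := by
      intro R hR
      refine ih _ ?_ ?_
      · intro j hj
        by_cases hja : j = a
        · subst hja
          rwa [Function.update_self]
        · rw [Function.update_of_ne hja]
          exact h1 j (by simp [hja, hj])
      · intro j hj
        have hja : j ≠ a := fun h => ha (h ▸ hj)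
        rw [Function.update_of_ne hja]
        exact h2 j (Finset.mem_insert_of_mem hj)
    exact Submodule.sub_mem _ (key P hP) (key Q hQ)

/-- `B_c` is nonnegative -/
theorem bc_nonneg {r : ℕ} (W : Weyl r) (D : Refl r) (hD : D.B = W.B) (c : Fin r)
    (x : Vr r) : 0 ≤ bil (D.Bc c) x x := by
  classical
  set a : Fin r → ℝ := fun i => bil D.B (D.ϖ i) x with ha
  set xc : Vr r := ∑ i, if D.Rel c i then a i • D.ρ i else 0 with hxc
  set xd : Vr r := ∑ i, if D.Rel c i then 0 else a i • D.ρ i with hxd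
  have hx : x = xc + xd := by
    rw [hxc, hxd, ← Finset.sum_add_distrib]
    conv_lhs => rw [expand_rho D x]
    refine Finset.sum_congr rfl fun i _ => ?_
    split_ifs <;> simp [ha]
  have h1 : bil (D.Bc c) x x = bil D.B xc x := by
    rw [bc_formula, hxc, ← BL_apply, map_sum, LinearMap.sum_apply]
    refine Finset.sum_congr rfl fun i _ => ?_
    split_ifs
    · rw [map_smul, LinearMap.smul_apply, smul_eq_mul, BL_apply]
    · simp
  have h2 : bil D.B xc xd = 0 := by
    rw [hxc, hxd, ← BL_apply, map_sum]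
    refine Finset.sum_eq_zero fun j _ => ?_
    split_ifs with hj
    · rw [map_zero]
    · rw [map_sum, LinearMap.sum_apply]
      refine Finset.sum_eq_zero fun i _ => ?_
      split_ifs with hi
      · rw [map_smul, LinearMap.map_smul, LinearMap.smul_apply, BL_apply]
        by_cases h0 : bil D.B (D.ρ i) (D.ρ j) = 0
        · rw [h0]; simp
        · exact absurd ((rel_symm D h0 c).1 hi) hj
      · simp
  have h3 : bil D.B xc x = bil D.B xc xc + bil D.B xc xd := by
    conv_lhs => rw [hx]
    rw [← BL_apply, map_add]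
    rfl
  rw [h1, h3, h2, add_zero, hD]
  by_cases h0 : xc = 0
  · rw [h0]; simp [bil]
  · exact (W.pos _ h0).le

theorem refl_eq {r : ℕ} (W : Weyl r) (i : Fin r) (hi : i ∉ W.Z) (z : Vr r) :
    (fun a => ∑ b, (W.S i a b : ℝ) * z b) =
      z - (2 * bil W.B (W.ρ i) z / bil W.B (W.ρ i) (W.ρ i)) • W.ρ i := by
  funext a
  exact W.refl i hi z a

theorem bilW_comm {r : ℕ} (W : Weyl r) (x y : Vr r) : bil W.B x y = bil W.B y x := by
  rw [bil, bil, Finset.sum_comm]
  refine Finset.sum_congr rfl fun i _ => Finset.sum_congr rfl fun j _ => ?_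
  rw [W.symm j i]
  ring

theorem inner_B {r : ℕ} (W : Weyl r) : W.InvInner W.B := by
  refine ⟨W.symm, W.pos, fun i hi x y => ?_⟩
  have h0 : bil W.B (W.ρ i) (W.ρ i) ≠ 0 := (W.pos _ (W.indep.ne_zero i)).ne'
  have key : ∀ k l : ℝ, bil W.B (x - k • W.ρ i) (y - l • W.ρ i) =
      bil W.B x y - k * bil W.B (W.ρ i) y - l * bil W.B x (W.ρ i) +
        k * l * bil W.B (W.ρ i) (W.ρ i) := by
    intro k l
    rw [← BL_apply, ← BL_apply, ← BL_apply, ← BL_apply, ← BL_apply]
    simp only [map_sub, map_smul, LinearMap.sub_apply, LinearMap.smul_apply, smul_eq_mul]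
    ring
  rw [refl_eq W i hi, refl_eq W i hi, key, bilW_comm W x (W.ρ i)]
  field_simp
  ring

theorem inner_add {r : ℕ} (W : Weyl r) (D : Refl r) (hD : D.B = W.B) (hρ : D.ρ = W.ρ)
    (c : Fin r) : W.InvInner (W.B + D.Bc c) := by
  refine ⟨fun i j => ?_, fun x hx => ?_, fun i hi x y => ?_⟩
  · rw [Matrix.add_apply, Matrix.add_apply, W.symm i j, ← bil_pair_mat (D.Bc c) i j,
      ← bil_pair_mat (D.Bc c) j i, bc_symm]
  · rw [bil_add_mat]
    exact add_pos_of_pos_of_nonneg (W.pos x hx) (bc_nonneg W D hD c x)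
  · rw [bil_add_mat, bil_add_mat, (inner_B W).inv i hi x y]
    congr 1
    have h := (bc r D c).2.1 i x y
    rw [Refl.s, Refl.s, hD, hρ] at h
    rw [refl_eq W i hi, refl_eq W i hi, h]

theorem prod_mem {r m : ℕ} (W : Weyl r) (D : Refl r) (hD : D.B = W.B) (hρ : D.ρ = W.ρ)
    (κ : Fin m → Fin r) : omProd (fun j => D.Bc (κ j)) ∈ W.Gen m :=
  mem_gen_of_diff W Finset.univ _ (fun j hj => absurd (Finset.mem_univ j) hj) fun j _ =>
    ⟨W.B + D.Bc (κ j), W.B, inner_add W D hD hρ (κ j), inner_B W, (add_sub_cancel_left _ _).symm⟩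

end Pool.Agent.W5h69.FU
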