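import Pool.Agent.W5h69.FU.Defs
import Pool.Agent.W5h69.FM.MP

/-! (MP): the reflections preserve the Haar measure of `T × T`. -/

set_option autoImplicit false

open MeasureTheory

noncomputable section

namespace Pool.Agent.W5h69.FU

open Pool.Agent.W5h69.FM (Vr To Form bil om actT actV InvUnder blockSL blockW mpHom mp_torus mp_bil_sub)

lemma mp_sq {r : ℕ} (W : Weyl r) (i : Fin r) (hi : i ∉ W.Z) : W.S i * W.S i = 1 := by
  set M : Matrix (Fin r) (Fin r) ℝ := (W.S i).map (Int.cast : ℤ → ℝ) with hM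
  have h0 : bil W.B (W.ρ i) (W.ρ i) ≠ 0 := (W.pos _ (W.indep.ne_zero i)).ne'
  have h1 : ∀ x : Vr r, M.mulVec x =
      x - (2 * bil W.B (W.ρ i) x / bil W.B (W.ρ i) (W.ρ i)) • W.ρ i := by
    intro x
    funext a
    exact W.refl i hi x a
  have h2 : ∀ x : Vr r, (M * M).mulVec x = x := by
    intro x
    rw [← Matrix.mulVec_mulVec, h1 (M.mulVec x), h1 x, mp_bil_sub]
    funext a
    simp only [Pi.sub_apply, Pi.smul_apply, smul_eq_mul]
    field_simp
    ring
  have h3 : M * M = 1 := by
    ext a b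
    have h4 := congrFun (h2 (Pi.single b 1)) a
    rw [Matrix.mulVec_single_one] at h4
    rw [Matrix.one_apply]
    by_cases hab : a = b
    · rw [if_pos hab]
      subst hab
      simpa using h4
    · rw [if_neg hab]
      rw [Pi.single_eq_of_ne hab] at h4
      exact h4
  have h5 : (W.S i * W.S i).map (Int.cast : ℤ → ℝ) = M * M := by
    ext a b
    simp only [Matrix.map_apply, Matrix.mul_apply, hM]
    push_cast
    rfl
  ext a b
  have h6 := congrFun (congrFun (h5.trans h3) a) b
  rw [Matrix.map_apply] at h6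
  have h7 : ((1 : Matrix (Fin r) (Fin r) ℝ) a b) = (((1 : Matrix (Fin r) (Fin r) ℤ) a b : ℤ) : ℝ) := by
    by_cases hab : a = b
    · subst hab
      simp
    · rw [Matrix.one_apply_ne hab, Matrix.one_apply_ne hab]
      simp
  rw [h7] at h6
  exact_mod_cast h6

/-- (MP) -/
theorem mp : S_MP := by
  intro r W i hi
  have h := mp_torus (mp_sq W i hi)
  have h2 := h.prod h
  have e : actT (blockW (W.S i)) = Prod.map (mpHom (W.S i)) (mpHom (W.S i)) := by
    funext p
    refine Prod.ext ?_ ?_
    · funext a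
      show ∑ b, (blockW (W.S i)) (Sum.inl a) (Sum.inl b) • p.1 b +
        ∑ b, (blockW (W.S i)) (Sum.inl a) (Sum.inr b) • p.2 b = ∑ b, W.S i a b • p.1 b
      simp [blockW]
    · funext a
      show ∑ b, (blockW (W.S i)) (Sum.inr a) (Sum.inl b) • p.1 b +
        ∑ b, (blockW (W.S i)) (Sum.inr a) (Sum.inr b) • p.2 b = ∑ b, W.S i a b • p.2 b
      simp [blockW]
  rw [e]
  exact h2

end Pool.Agent.W5h69.FU
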