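import Pool.Agent.W5h69.FG.Core
import Pool.Agent.W5h69.FU.Cen
import Pool.Agent.W5h69.FU.Dual
import Pool.Agent.W5h69.FU.MP
import Pool.Agent.W5h69.FU.Gen

/-! The core theorem, groups with at most one-dimensional centre. -/

open MeasureTheory Filter
open Pool.Agent.W5h69.FM (Vr To Form bil om actT actV InvUnder blockSL blockW const_all actT_u1
  actT_u2 actV_u1 actV_u2 mpHom mp_torus)
open Pool.Agent.W5h69.FG (Refl omProd alg_all)

noncomputable section

namespace Pool.Agent.W5h69.FU

theorem actV_W {r : ℕ} (W : Weyl r) (i : Fin r) (hi : i ∉ W.Z) (v : Vr r × Vr r) :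
    actV (blockW (W.S i)) v =
      (v.1 - (2 * bil W.B (W.ρ i) v.1 / bil W.B (W.ρ i) (W.ρ i)) • W.ρ i,
       v.2 - (2 * bil W.B (W.ρ i) v.2 / bil W.B (W.ρ i) (W.ρ i)) • W.ρ i) := by
  ext a
  · have h := W.refl i hi v.1 a
    simp only [actV, blockW, Matrix.fromBlocks_apply₁₁, Matrix.fromBlocks_apply₁₂,
      Matrix.zero_apply, Int.cast_zero, zero_mul, Finset.sum_const_zero, add_zero]
    exact h
  · have h := W.refl i hi v.2 a
    simp only [actV, blockW, Matrix.fromBlocks_apply₂₁, Matrix.fromBlocks_apply₂₂,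
      Matrix.zero_apply, Int.cast_zero, zero_mul, Finset.sum_const_zero, zero_add]
    exact h

theorem mp_neg {r : ℕ} :
    MeasurePreserving (actT (blockSL (-1))) (volume : Measure (To r × To r)) volume := by
  have h := mp_torus (r := r) (S := -1) (by simp)
  have h2 := h.prod h
  have e : actT (r := r) (blockSL (-1)) = Prod.map (mpHom (-1)) (mpHom (-1)) := by
    funext p
    refine Prod.ext ?_ ?_
    · funext a
      show ∑ b, (blockSL (-1)) (Sum.inl a) (Sum.inl b) • p.1 b +
        ∑ b, (blockSL (-1)) (Sum.inl a) (Sum.inr b) • p.2 b =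
          ∑ b, (-1 : Matrix (Fin r) (Fin r) ℤ) a b • p.1 b
      simp [blockSL]
    · funext a
      show ∑ b, (blockSL (-1)) (Sum.inr a) (Sum.inl b) • p.1 b +
        ∑ b, (blockSL (-1)) (Sum.inr a) (Sum.inr b) • p.2 b =
          ∑ b, (-1 : Matrix (Fin r) (Fin r) ℤ) a b • p.2 b
      simp [blockSL]
  rw [e]
  exact h2

theorem actV_neg {r : ℕ} (v : Vr r × Vr r) : actV (blockSL (-1)) v = (-1 : ℝ) • v := by
  ext i <;> simp [actV, blockSL, Matrix.fromBlocks, Matrix.one_apply]

theorem core {r : ℕ} (W : Weyl r) {ι : Type} [Fintype ι] [DecidableEq ι]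
    (α : To r × To r → Form r ι) (hm : ∀ v, Measurable fun p => α p v)
    (h1 : InvUnder (blockSL !![1, 1; 0, 1]) α) (h2 : InvUnder (blockSL !![1, 0; 1, 1]) α)
    (hneg : InvUnder (blockSL (-1)) α)
    (hW : ∀ i ∉ W.Z, InvUnder (blockW (W.S i)) α) : IsGenerated W α := by
  obtain ⟨β, hβ⟩ := const_all r ι α hm
    (by simpa only [InvUnder, actT_u1, actV_u1] using h1)
    (by simpa only [InvUnder, actT_u2, actV_u2] using h2)
  have hop : (volume : Measure (To r × To r)).IsOpenPosMeasure := by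
    rw [Measure.volume_eq_prod]
    infer_instance
  have hne : (volume : Measure (To r × To r)) ≠ 0 := by
    intro h0
    have h1 := isOpen_univ.measure_ne_zero (volume : Measure (To r × To r)) Set.univ_nonempty
    rw [h0] at h1
    simp at h1
  have : NeBot (ae (volume : Measure (To r × To r))) := ae_neBot.2 hne
  have h3 : ∀ i ∉ W.Z, ∀ (v : ι → Vr r × Vr r),
      β (fun t => actV (blockW (W.S i)) (v t)) = β v := by
    intro i hi v
    obtain ⟨p, hp1, hp2, hp3⟩ :=
      ((hW i hi).and (hβ.and ((mp r W i hi).quasiMeasurePreserving.ae hβ))).exists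
    have h := hp1 v
    rw [hp2, hp3] at h
    exact h
  have h4 : ∀ (v : ι → Vr r × Vr r), β (fun t => (-1 : ℝ) • v t) = β v := by
    intro v
    obtain ⟨p, hp1, hp2, hp3⟩ :=
      (hneg.and (hβ.and (mp_neg.quasiMeasurePreserving.ae hβ))).exists
    have h := hp1 v
    rw [hp2, hp3] at h
    simpa only [actV_neg] using h
  have h5 : Odd (Fintype.card ι) → β = 0 := by
    intro hodd
    ext v
    have h6 : β (fun t => (-1 : ℝ) • v t) = (∏ _t : ι, (-1 : ℝ)) • β v :=
      β.toMultilinearMap.map_smul_univ (fun _ => (-1 : ℝ)) v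
    rw [h4, Finset.prod_const, Finset.card_univ, hodd.neg_one_pow] at h6
    have h7 : β v = 0 := by
      rw [smul_eq_mul] at h6
      linarith
    rw [h7]
    rfl
  refine ⟨fun hodd => ?_, fun m e => ?_⟩
  · filter_upwards [hβ] with p hp
    rw [hp, h5 hodd]
  · have heven : Even (Fintype.card ι) := by
      rw [← Fintype.card_congr e]
      simp
    obtain ⟨D, hDB, hDρ⟩ := dual r W
    have h6 : ∀ i ∉ W.Z, ∀ v : ι → Vr r × Vr r,
        β (fun t => (D.s i (v t).1, D.s i (v t).2)) = β v := by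
      intro i hi v
      rw [← h3 i hi v]
      congr 1
      funext t
      rw [actV_W W i hi]
      simp only [Refl.s, hDB, hDρ]
    have hI : D.Inv β := by
      by_cases hZ : ∃ i, i ∈ W.Z
      · obtain ⟨i, hi⟩ := hZ
        refine cen alg_all D i (fun j hj => ?_) β heven fun j hj => h6 j fun hj' => hj ?_
        · rw [hDB, hDρ]
          exact W.orth i hi j hj
        · exact W.hZ hj' hi
      · intro i
        exact h6 i fun hi => hZ ⟨i, hi⟩
    obtain ⟨_, hb⟩ := alg_all r D ι β hI
    obtain ⟨c, hc⟩ := hb m e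
    refine ⟨∑ κ : Fin m → Fin r, c κ • omProd (fun j => D.Bc (κ j)), ?_, ?_⟩
    · exact Submodule.sum_mem _ fun κ _ => Submodule.smul_mem _ _ (prod_mem W D hDB hDρ κ)
    · filter_upwards [hβ] with p hp v
      rw [hp, hc v, Finset.sum_apply]
      rfl

end Pool.Agent.W5h69.FU
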