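import Pool.Agent.W5h69.FG.Defs
import Pool.Agent.W5h69.FM.Defs2

/-!
# MP_d52947_gt : groups with at most one-dimensional centre, the final statements
-/

open MeasureTheory
open Pool.Agent.W5h69.FM (Vr To Form bil om actT actV InvUnder blockSL blockW)
open Pool.Agent.W5h69.FG (omProd Refl)

noncomputable section

namespace Pool.Agent.W5h69.FU

/-- The Weyl group of a compact connected group with centre of dimension at most one, acting on the
cocharacter lattice `ℤ^r` of the maximal torus: an invariant inner product `B`, a basis `ρ` of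
`ℝ^r` and a set `Z` of at most one index; for `i ∈ Z` the vector `ρ i` is orthogonal to the others
(it spans the Lie algebra of the centre), for `i ∉ Z` it is a simple coroot and the integer matrix
`S i` is the reflection in it. -/
structure Weyl (r : ℕ) where
  B : Matrix (Fin r) (Fin r) ℝ
  symm : ∀ i j, B i j = B j i
  pos : ∀ x : Vr r, x ≠ 0 → 0 < bil B x x
  ρ : Fin r → Vr r
  indep : LinearIndependent ℝ ρ
  Z : Set (Fin r)
  hZ : Z.Subsingleton
  orth : ∀ i ∈ Z, ∀ j, j ≠ i → bil B (ρ i) (ρ j) = 0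
  S : Fin r → Matrix (Fin r) (Fin r) ℤ
  refl : ∀ i ∉ Z, ∀ (x : Vr r) (a : Fin r),
    ∑ b, (S i a b : ℝ) * x b = (x - (2 * bil B (ρ i) x / bil B (ρ i) (ρ i)) • ρ i) a

/-- `B'` is an inner product invariant under the reflections of `W`. -/
structure Weyl.InvInner {r : ℕ} (W : Weyl r) (B' : Matrix (Fin r) (Fin r) ℝ) : Prop where
  symm : ∀ i j, B' i j = B' j i
  pos : ∀ x : Vr r, x ≠ 0 → 0 < bil B' x x
  inv : ∀ i ∉ W.Z, ∀ (x y : Vr r),
    bil B' (fun a => ∑ b, (W.S i a b : ℝ) * x b) (fun a => ∑ b, (W.S i a b : ℝ) * y b) =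
      bil B' x y

/-- The linear span of the products `ω_{B_1} ∧ ... ∧ ω_{B_m}`, every `B_j` an inner product
invariant under `W`. -/
def Weyl.Gen {r : ℕ} (W : Weyl r) (m : ℕ) : Submodule ℝ ((Fin m × Bool → Vr r × Vr r) → ℝ) :=
  Submodule.span ℝ {f | ∃ Bs : Fin m → Matrix (Fin r) (Fin r) ℝ,
    (∀ j, W.InvInner (Bs j)) ∧ f = omProd Bs}

/-- `α` is almost everywhere `0` if the degree is odd, and almost everywhere equal to one element
of the span of the products `ω_{B_1} ∧ ... ∧ ω_{B_m}` if the degree is `2m`. -/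
def IsGenerated {r : ℕ} {ι : Type} [Fintype ι] (W : Weyl r)
    (α : To r × To r → Form r ι) : Prop :=
  (Odd (Fintype.card ι) → ∀ᵐ p : To r × To r, α p = 0) ∧
  ∀ (m : ℕ) (e : Fin m × Bool ≃ ι), ∃ f ∈ W.Gen m, ∀ᵐ p : To r × To r,
    ∀ v : ι → Vr r × Vr r, α p v = f (fun x => v (e x))

/-- (DUAL) the dual basis -/
def S_DUAL : Prop := ∀ (r : ℕ) (W : Weyl r), ∃ D : Refl r, D.B = W.B ∧ D.ρ = W.ρ

/-- (MP) the reflections preserve the Haar measure of `T × T` -/
def S_MP : Prop := ∀ (r : ℕ) (W : Weyl r), ∀ i ∉ W.Z,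
  MeasurePreserving (actT (blockW (W.S i))) (volume : Measure (To r × To r)) volume

end Pool.Agent.W5h69.FU
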